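import Pool.Agent.Q97.KD.Polar
import Pool.Agent.W770.SA.TubeF
import Pool.Agent.W770.SA.Count3

set_option autoImplicit false

/-!
Averages over centred tubes.
-/

open MeasureTheory Set Filter Topology ENNReal NNReal Metric

namespace Pool.Agent.Q97.KF

open Pool.Agent.W770.SA (tube kakeyaMax)
open Pool.Agent.Q97.KD (surf ray)

/-- the centred tube of length `4` and radius `4 δ` -/
def bigTube {n : ℕ} (δ : ℝ) (e : EuclideanSpace ℝ (Fin n)) : Set (EuclideanSpace ℝ (Fin n)) :=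
  {y | |inner ℝ y e| ≤ 2 ∧ ‖y - (inner ℝ y e : ℝ) • e‖ ≤ 4 * δ}

theorem norm_perp_sq {n : ℕ} {e : EuclideanSpace ℝ (Fin n)} (he : ‖e‖ = 1)
    (x : EuclideanSpace ℝ (Fin n)) :
    ‖x - (inner ℝ x e : ℝ) • e‖ ^ 2 = ‖x‖ ^ 2 - (inner ℝ x e : ℝ) ^ 2 := by
  rw [norm_sub_sq_real, inner_smul_right, norm_smul, he, mul_one, Real.norm_eq_abs, sq_abs]
  ring

theorem isClosed_pairs {n : ℕ} (δ : ℝ) : IsClosed {p : sphere (0 : EuclideanSpace ℝ (Fin n)) 1 ×
    EuclideanSpace ℝ (Fin n) | p.2 ∈ bigTube δ (p.1 : EuclideanSpace ℝ (Fin n))} := by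
  have h1 : Continuous (fun p : sphere (0 : EuclideanSpace ℝ (Fin n)) 1 × EuclideanSpace ℝ (Fin n) =>
      |inner ℝ p.2 (p.1 : EuclideanSpace ℝ (Fin n))|) := by fun_prop
  have h2 : Continuous (fun p : sphere (0 : EuclideanSpace ℝ (Fin n)) 1 × EuclideanSpace ℝ (Fin n) =>
      ‖p.2 - (inner ℝ p.2 (p.1 : EuclideanSpace ℝ (Fin n)) : ℝ) • (p.1 : EuclideanSpace ℝ (Fin n))‖) := by
    fun_prop
  exact (isClosed_le h1 continuous_const).inter (isClosed_le h2 continuous_const)

theorem isClosed_bigTube {n : ℕ} (δ : ℝ) (e : EuclideanSpace ℝ (Fin n)) :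
    IsClosed (bigTube δ e) := by
  have h1 : Continuous (fun y : EuclideanSpace ℝ (Fin n) => |inner ℝ y e|) := by fun_prop
  have h2 : Continuous (fun y : EuclideanSpace ℝ (Fin n) => ‖y - (inner ℝ y e : ℝ) • e‖) := by
    fun_prop
  exact (isClosed_le h1 continuous_const).inter (isClosed_le h2 continuous_const)

/-- the directions of the centred tubes through a point -/
theorem cap_bound {m : ℕ} {δ : ℝ} (hδ : 0 < δ) {x : EuclideanSpace ℝ (Fin (m + 1))} (hx : 0 < ‖x‖) :
    surf (m + 1) {e | x ∈ bigTube δ (e : EuclideanSpace ℝ (Fin (m + 1)))} ≤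
      ENNReal.ofReal (((m:ℝ) + 1) * 2 ^ (m + 1) * (8 * δ / ‖x‖) ^ m) := by
  set u : EuclideanSpace ℝ (Fin (m + 1)) := (‖x‖)⁻¹ • x with hu
  have hu1 : ‖u‖ = 1 := by
    rw [hu, norm_smul, norm_inv, norm_norm, inv_mul_cancel₀ hx.ne']
  set ρ : ℝ := 4 * δ / ‖x‖ with hρ
  have hρ0 : 0 < ρ := by positivity
  set H := tube ρ u 0 with hH
  have hHm : MeasurableSet H := (Pool.Agent.W770.SA.isClosed_tube ρ u 0).measurableSet
  have hpol := Pool.Agent.Q97.KD.polar (n := m + 1) (by omega) hHm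
  have hray : ∀ e : sphere (0 : EuclideanSpace ℝ (Fin (m + 1))) 1,
      x ∈ bigTube δ (e : EuclideanSpace ℝ (Fin (m + 1))) →
      ENNReal.ofReal ((1/2) ^ (m + 1) / (m + 1)) ≤ ray H (e : EuclideanSpace ℝ (Fin (m + 1))) := by
    intro e he
    have he1 : ‖(e : EuclideanSpace ℝ (Fin (m + 1)))‖ = 1 := by simp
    set e' : EuclideanSpace ℝ (Fin (m + 1)) := (e : EuclideanSpace ℝ (Fin (m + 1))) with he'
    have h1 : ‖e' - (inner ℝ e' u : ℝ) • u‖ ≤ ρ := by
      have h2 := norm_perp_sq hu1 e'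
      have h3 := norm_perp_sq he1 x
      have h4 : (inner ℝ e' u : ℝ) = (‖x‖)⁻¹ * inner ℝ x e' := by
        rw [hu, inner_smul_right, real_inner_comm]
      have h5 : ‖e' - (inner ℝ e' u : ℝ) • u‖ ^ 2 ≤ ρ ^ 2 := by
        rw [h2, he1, h4, hρ, div_pow, le_div_iff₀ (by positivity)]
        have h6 : ‖x - (inner ℝ x e' : ℝ) • e'‖ ^ 2 ≤ (4 * δ) ^ 2 :=
          pow_le_pow_left₀ (norm_nonneg _) he.2 2
        rw [h3] at h6
        have h7 : (1 ^ 2 - ((‖x‖)⁻¹ * inner ℝ x e') ^ 2) * ‖x‖ ^ 2 = ‖x‖ ^ 2 - (inner ℝ x e' : ℝ) ^ 2 := by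
          field_simp
        linarith
      exact (pow_le_pow_iff_left₀ (norm_nonneg _) hρ0.le two_ne_zero).1 h5
    have hmem : ∀ r ∈ Ioc (0:ℝ) (1/2), r • e' ∈ H := by
      intro r hr
      have hr0 : 0 < r := hr.1
      refine ⟨?_, ?_⟩
      · rw [sub_zero, inner_smul_left]
        have h8 : |inner ℝ e' u| ≤ 1 := by
          have := abs_real_inner_le_norm e' u
          rwa [he1, hu1, mul_one] at this
        rw [abs_mul]
        simp only [conj_trivial, abs_of_pos hr0]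
        calc r * |inner ℝ e' u| ≤ r * 1 := by gcongr
          _ ≤ 1 / 2 := by linarith [hr.2]
      · rw [sub_zero, inner_smul_left]
        simp only [conj_trivial]
        have h9 : r • e' - (r * (inner ℝ e' u : ℝ)) • u = r • (e' - (inner ℝ e' u : ℝ) • u) := by
          rw [smul_sub, smul_smul r (inner ℝ e' u : ℝ) u]
        rw [h9, norm_smul, Real.norm_eq_abs, abs_of_pos hr0]
        calc r * ‖e' - (inner ℝ e' u : ℝ) • u‖ ≤ 1 * ρ := by
              gcongr
              linarith [hr.2]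
          _ = ρ := one_mul _
    unfold ray
    calc ENNReal.ofReal ((1/2) ^ (m + 1) / (m + 1)) = ∫⁻ r in Ioc (0:ℝ) (1/2), ENNReal.ofReal (r ^ m) := by
          rw [← ofReal_integral_eq_lintegral_ofReal]
          · rw [← intervalIntegral.integral_of_le (by norm_num), integral_pow]
            simp
          · exact (intervalIntegral.intervalIntegrable_pow m).1
          · filter_upwards [ae_restrict_mem measurableSet_Ioc] with y hy
            exact pow_nonneg hy.1.le _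
      _ ≤ ∫⁻ r in Ioc (0:ℝ) (1/2), ENNReal.ofReal (r ^ (m + 1 - 1)) * H.indicator 1 (r • e') := by
          apply setLIntegral_mono' measurableSet_Ioc
          intro r hr
          rw [indicator_of_mem (hmem r hr), Pi.one_apply, mul_one, Nat.add_sub_cancel]
      _ ≤ _ := lintegral_mono_set Ioc_subset_Ioi_self
  have h1 : ENNReal.ofReal ((1/2) ^ (m + 1) / (m + 1)) *
      surf (m + 1) {e | x ∈ bigTube δ (e : EuclideanSpace ℝ (Fin (m + 1)))} ≤ volume H := by
    rw [← hpol]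
    refine le_trans ?_ (mul_meas_ge_le_lintegral (Pool.Agent.Q97.KD.measurable_ray hHm)
      (ENNReal.ofReal ((1/2) ^ (m + 1) / (m + 1))))
    exact mul_le_mul_right (measure_mono fun e he => hray e he) _
  have h2 : volume H ≤ ENNReal.ofReal ((2 * ρ) ^ m) := Pool.Agent.W770.SA.volume_tube_le hρ0 hu1
  have hc0 : (0:ℝ) < (1/2) ^ (m + 1) / (m + 1) := by positivity
  have h3 := h1.trans h2
  calc surf (m + 1) {e | x ∈ bigTube δ (e : EuclideanSpace ℝ (Fin (m + 1)))}
      ≤ ENNReal.ofReal ((2 * ρ) ^ m) / ENNReal.ofReal ((1/2) ^ (m + 1) / (m + 1)) := by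
        rw [ENNReal.le_div_iff_mul_le (Or.inl (by rw [Ne, ENNReal.ofReal_eq_zero, not_le]; exact hc0))
          (Or.inl ENNReal.ofReal_ne_top), mul_comm]
        exact h3
    _ = _ := by
        rw [← ENNReal.ofReal_div_of_pos hc0]
        congr 1
        rw [hρ]
        have : 2 * (4 * δ / ‖x‖) = 8 * δ / ‖x‖ := by ring
        rw [this, one_div, inv_pow]
        field_simp

/-- the directions of the centred tubes through a point, uniform form -/
theorem cap_weight {m : ℕ} : ∃ C : ℝ, 0 < C ∧ ∀ {δ : ℝ}, 0 < δ → ∀ x : EuclideanSpace ℝ (Fin (m + 1)),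
    surf (m + 1) {e | x ∈ bigTube δ (e : EuclideanSpace ℝ (Fin (m + 1)))} *
      ENNReal.ofReal ((δ + ‖x‖) ^ m) ≤ ENNReal.ofReal (C * δ ^ m) := by
  set Sg : ℝ := (surf (m + 1) univ).toReal with hSg
  have hfin : surf (m + 1) univ ≠ ∞ := by
    unfold surf
    exact measure_ne_top _ _
  have hSg0 : 0 ≤ Sg := ENNReal.toReal_nonneg
  refine ⟨(Sg + 1) * 2 ^ m + ((m:ℝ) + 1) * 2 ^ (m + 1) * 16 ^ m, by positivity, ?_⟩
  intro δ hδ x
  rcases le_or_gt ‖x‖ δ with hx | hx
  · calc surf (m + 1) {e | x ∈ bigTube δ (e : EuclideanSpace ℝ (Fin (m + 1)))} *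
        ENNReal.ofReal ((δ + ‖x‖) ^ m) ≤ ENNReal.ofReal Sg * ENNReal.ofReal ((2 * δ) ^ m) := by
          gcongr
          · rw [ENNReal.ofReal_toReal hfin]
            exact measure_mono (subset_univ _)
          · linarith
      _ ≤ _ := by
          rw [← ENNReal.ofReal_mul hSg0]
          apply ENNReal.ofReal_le_ofReal
          rw [mul_pow]
          have h1 : 0 ≤ ((m:ℝ) + 1) * 2 ^ (m + 1) * 16 ^ m * δ ^ m := by positivity
          have h2 : 0 ≤ (2:ℝ) ^ m * δ ^ m := by positivity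
          nlinarith
  · have hx0 : 0 < ‖x‖ := hδ.trans hx
    calc surf (m + 1) {e | x ∈ bigTube δ (e : EuclideanSpace ℝ (Fin (m + 1)))} *
        ENNReal.ofReal ((δ + ‖x‖) ^ m) ≤
          ENNReal.ofReal (((m:ℝ) + 1) * 2 ^ (m + 1) * (8 * δ / ‖x‖) ^ m) *
          ENNReal.ofReal ((2 * ‖x‖) ^ m) := by
          gcongr
          · exact cap_bound hδ hx0
          · linarith
      _ ≤ _ := by
          rw [← ENNReal.ofReal_mul (by positivity)]
          apply ENNReal.ofReal_le_ofReal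
          have h1 : (8 * δ / ‖x‖) ^ m * (2 * ‖x‖) ^ m = 16 ^ m * δ ^ m := by
            rw [← mul_pow, ← mul_pow]
            congr 1
            field_simp
            ring
          have h2 : 0 ≤ (Sg + 1) * 2 ^ m * δ ^ m := by positivity
          calc ((m:ℝ) + 1) * 2 ^ (m + 1) * (8 * δ / ‖x‖) ^ m * (2 * ‖x‖) ^ m
              = ((m:ℝ) + 1) * 2 ^ (m + 1) * ((8 * δ / ‖x‖) ^ m * (2 * ‖x‖) ^ m) := by ring
            _ = ((m:ℝ) + 1) * 2 ^ (m + 1) * (16 ^ m * δ ^ m) := by rw [h1]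
            _ ≤ _ := by linarith

/-- the centred averages -/
noncomputable def cen {n : ℕ} (δ : ℝ) (h : EuclideanSpace ℝ (Fin n) → ℝ≥0∞)
    (e : EuclideanSpace ℝ (Fin n)) : ℝ≥0∞ :=
  (volume (tube δ e 0))⁻¹ * ∫⁻ y in bigTube δ e, h y

/-- the one-dimensional weight integral -/
noncomputable def wint (δ b : ℝ) : ℝ≥0∞ := ∫⁻ s in Icc (0:ℝ) 1, ENNReal.ofReal ((δ + s) ^ (-b))

theorem wint_ne_top {δ b : ℝ} (hδ : 0 < δ) (hb : 0 ≤ b) : wint δ b ≠ ∞ := by
  have h1 : wint δ b ≤ ENNReal.ofReal (δ ^ (-b)) := by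
    calc wint δ b ≤ ∫⁻ _s in Icc (0:ℝ) 1, ENNReal.ofReal (δ ^ (-b)) := by
          apply setLIntegral_mono' measurableSet_Icc
          intro s hs
          apply ENNReal.ofReal_le_ofReal
          exact Real.rpow_le_rpow_of_nonpos hδ (by linarith [hs.1]) (by linarith)
      _ = _ := by rw [setLIntegral_const, Real.volume_Icc]; simp
  exact (h1.trans_lt ENNReal.ofReal_lt_top).ne

theorem wint_shift {δ b : ℝ} (hδ : 0 < δ) (hb : 0 ≤ b) (c : ℝ) :
    ∫⁻ s in Icc (0:ℝ) 1, ENNReal.ofReal ((δ + |c + s|) ^ (-b)) ≤ 2 * wint δ b := by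
  have h0 : wint δ b ≤ 2 * wint δ b := by rw [two_mul]; exact le_self_add
  have hdec : ∀ x y : ℝ, 0 ≤ x → x ≤ y → ENNReal.ofReal ((δ + y) ^ (-b)) ≤
      ENNReal.ofReal ((δ + x) ^ (-b)) := by
    intro x y hx hxy
    apply ENNReal.ofReal_le_ofReal
    exact Real.rpow_le_rpow_of_nonpos (by linarith) (by linarith) (by linarith)
  rcases le_or_gt 0 c with hc | hc
  · refine le_trans ?_ h0
    apply setLIntegral_mono' measurableSet_Icc
    intro s hs
    apply hdec s _ hs.1
    rw [abs_of_nonneg (by linarith [hs.1])]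
    linarith
  rcases le_or_gt c (-1) with hc1 | hc1
  · refine le_trans ?_ h0
    have hrefl : ∫⁻ s in Icc (0:ℝ) 1, ENNReal.ofReal ((δ + (1 - s)) ^ (-b)) = wint δ b := by
      have h1 := (Measure.measurePreserving_sub_left (volume : Measure ℝ) 1).setLIntegral_comp_preimage_emb
        (MeasurableEquiv.subLeft (1:ℝ)).measurableEmbedding
        (fun s : ℝ => ENNReal.ofReal ((δ + s) ^ (-b))) (Icc (0:ℝ) 1)
      have h2 : (fun x : ℝ => 1 - x) ⁻¹' Icc 0 1 = Icc 0 1 := by
        ext x; simp only [mem_preimage, mem_Icc]; constructor <;> rintro ⟨h3, h4⟩ <;> constructor <;> linarith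
      rw [h2] at h1
      exact h1
    rw [← hrefl]
    apply setLIntegral_mono' measurableSet_Icc
    intro s hs
    apply hdec (1 - s) _ (by linarith [hs.2])
    rw [abs_of_nonpos (by linarith [hs.2])]
    linarith
  · set w : ℝ → ℝ≥0∞ := fun t => ENNReal.ofReal ((δ + |t|) ^ (-b)) with hw
    have h1 : ∫⁻ s in Icc (0:ℝ) 1, w (c + s) = ∫⁻ t in Icc c (c + 1), w t := by
      have h2 := (measurePreserving_add_left (volume : Measure ℝ) c).setLIntegral_comp_preimage_emb
        (MeasurableEquiv.addLeft c).measurableEmbedding w (Icc c (c + 1))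
      have h3 : (fun x : ℝ => c + x) ⁻¹' Icc c (c + 1) = Icc 0 1 := by
        ext x; simp only [mem_preimage, mem_Icc]; constructor <;> rintro ⟨h3, h4⟩ <;> constructor <;> linarith
      rw [h3] at h2
      exact h2
    have h4 : ∫⁻ t in Icc (-1:ℝ) 0, w t = wint δ b := by
      have h2 := (Measure.measurePreserving_neg (volume : Measure ℝ)).setLIntegral_comp_preimage_emb
        (MeasurableEquiv.neg ℝ).measurableEmbedding w (Icc (-1:ℝ) 0)
      have h3 : (fun x : ℝ => -x) ⁻¹' Icc (-1) 0 = Icc 0 1 := by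
        ext x; simp only [mem_preimage, mem_Icc]; constructor <;> rintro ⟨h3, h4⟩ <;> constructor <;> linarith
      have h2' : ∫⁻ a in (fun x : ℝ => -x) ⁻¹' Icc (-1) 0, w (-a) = ∫⁻ t in Icc (-1:ℝ) 0, w t := h2
      rw [h3] at h2'
      rw [← h2', wint]
      apply setLIntegral_congr_fun measurableSet_Icc
      intro s hs
      simp only [hw]
      rw [abs_neg, abs_of_nonneg hs.1]
    have h5 : ∫⁻ t in Icc (0:ℝ) 1, w t = wint δ b := by
      rw [wint]
      apply setLIntegral_congr_fun measurableSet_Icc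
      intro s hs
      simp only [hw]
      rw [abs_of_nonneg hs.1]
    calc ∫⁻ s in Icc (0:ℝ) 1, w (c + s) = ∫⁻ t in Icc c (c + 1), w t := h1
      _ ≤ ∫⁻ t in Icc (-1:ℝ) 0 ∪ Icc 0 1, w t := by
          apply lintegral_mono_set
          intro t ht
          rcases le_or_gt t 0 with h | h
          · exact Or.inl ⟨by linarith [ht.1], h⟩
          · exact Or.inr ⟨h.le, by linarith [ht.2]⟩
      _ ≤ _ := by
          refine (lintegral_union_le _ _ _).trans ?_
          rw [h4, h5, two_mul]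

theorem weight_bigTube {m : ℕ} {δ b : ℝ} (hδ : 0 < δ) (hb : 0 ≤ b) {e : EuclideanSpace ℝ (Fin (m + 1))}
    (he : ‖e‖ = 1) :
    ∫⁻ x in bigTube δ e, ENNReal.ofReal ((δ + ‖x‖) ^ (-b)) ≤
      ENNReal.ofReal (16 * (8 * δ) ^ m) * wint δ b := by
  set g : EuclideanSpace ℝ (Fin (m + 1)) → ℝ≥0∞ := fun x =>
    ENNReal.ofReal ((δ + |inner ℝ x e|) ^ (-b)) with hg
  have hgm : Measurable g := by
    have h1 : Measurable (fun x : EuclideanSpace ℝ (Fin (m + 1)) => δ + |inner ℝ x e|) := by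
      have : Continuous (fun x : EuclideanSpace ℝ (Fin (m + 1)) => δ + |inner ℝ x e|) := by fun_prop
      exact this.measurable
    exact (h1.pow_const _).ennreal_ofReal
  have hle : ∀ x : EuclideanSpace ℝ (Fin (m + 1)), ENNReal.ofReal ((δ + ‖x‖) ^ (-b)) ≤ g x := by
    intro x
    apply ENNReal.ofReal_le_ofReal
    have h1 : |inner ℝ x e| ≤ ‖x‖ := by
      have := abs_real_inner_le_norm x e
      rwa [he, mul_one] at this
    exact Real.rpow_le_rpow_of_nonpos (by positivity) (by linarith) (by linarith)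
  set c : Fin 4 → ℝ := ![-(3/2), -(1/2), 1/2, 3/2] with hc
  have hcov : bigTube δ e ⊆ ⋃ j : Fin 4, tube (4 * δ) e (c j • e) := by
    rintro y ⟨h1, h2⟩
    rw [abs_le] at h1
    have h3 : ∀ j : Fin 4, |inner ℝ y e - c j| ≤ 1 / 2 → y ∈ tube (4 * δ) e (c j • e) := by
      intro j hj
      have h4 : (inner ℝ (y - c j • e) e : ℝ) = inner ℝ y e - c j := by
        rw [inner_sub_left, inner_smul_left, real_inner_self_eq_norm_sq, he]
        simp
      refine ⟨by rw [h4]; exact hj, ?_⟩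
      rw [h4]
      have h5 : y - c j • e - (inner ℝ y e - c j) • e = y - (inner ℝ y e : ℝ) • e := by
        rw [sub_smul]; abel
      rw [h5]
      exact h2
    rw [mem_iUnion]
    rcases le_or_gt (inner ℝ y e : ℝ) (-1) with h | h
    · exact ⟨0, h3 0 (by rw [abs_le]; simp only [hc, Matrix.cons_val_zero]; constructor <;> linarith)⟩
    rcases le_or_gt (inner ℝ y e : ℝ) 0 with h' | h'
    · exact ⟨1, h3 1 (by rw [abs_le]; simp only [hc, Matrix.cons_val_one, Matrix.cons_val_zero]; constructor <;> linarith)⟩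
    rcases le_or_gt (inner ℝ y e : ℝ) 1 with h'' | h''
    · exact ⟨2, h3 2 (by rw [abs_le]; simp only [hc, Matrix.cons_val]; constructor <;> linarith)⟩
    · exact ⟨3, h3 3 (by rw [abs_le]; simp only [hc, Matrix.cons_val]; constructor <;> linarith)⟩
  have htube : ∀ j : Fin 4, ∫⁻ x in tube (4 * δ) e (c j • e), g x ≤
      2 * ENNReal.ofReal ((8 * δ) ^ m) * (2 * wint δ b) := by
    intro j
    refine (Pool.Agent.W770.SA.lintegral_tube_le he hgm).trans ?_
    refine mul_le_mul' (mul_le_mul_right ?_ _) (iSup_le fun z => ?_)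
    · refine (Pool.Agent.W770.SA.volume_tube_le (by positivity) he).trans (ENNReal.ofReal_le_ofReal ?_)
      have : 2 * (4 * δ) = 8 * δ := by ring
      rw [this]
    · have h6 : ∀ s : ℝ, g (z + s • e) = ENNReal.ofReal ((δ + |inner ℝ z e + s|) ^ (-b)) := by
        intro s
        simp only [hg]
        rw [inner_add_left, inner_smul_left, real_inner_self_eq_norm_sq, he]
        simp
      simp only [h6]
      exact wint_shift hδ hb _
  calc ∫⁻ x in bigTube δ e, ENNReal.ofReal ((δ + ‖x‖) ^ (-b))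
      ≤ ∫⁻ x in bigTube δ e, g x := lintegral_mono hle
    _ ≤ ∫⁻ x in ⋃ j : Fin 4, tube (4 * δ) e (c j • e), g x := lintegral_mono_set hcov
    _ ≤ ∑' j : Fin 4, ∫⁻ x in tube (4 * δ) e (c j • e), g x := lintegral_iUnion_le _ _
    _ ≤ ∑' _j : Fin 4, 2 * ENNReal.ofReal ((8 * δ) ^ m) * (2 * wint δ b) :=
        ENNReal.tsum_le_tsum htube
    _ = _ := by
        rw [tsum_fintype, Finset.sum_const, Finset.card_univ, Fintype.card_fin, nsmul_eq_mul,
          ENNReal.ofReal_mul (by norm_num)]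
        have : ENNReal.ofReal 16 = 16 := by simp
        rw [this]
        push_cast
        ring

/-- **Centred averages.** -/
theorem centered {m : ℕ} (hm : 1 ≤ m) {p : ℝ} (hp : 1 < p) : ∃ C : ℝ, 0 < C ∧ ∀ (δ : ℝ)
    (h : EuclideanSpace ℝ (Fin (m + 1)) → ℝ≥0∞), 0 < δ → Measurable h →
    ∫⁻ e, cen δ h (e : EuclideanSpace ℝ (Fin (m + 1))) ^ p ∂(surf (m + 1)) ≤
      ENNReal.ofReal C * wint δ ((m:ℝ) / (p - 1)) ^ (p - 1) * ∫⁻ x, h x ^ p := by
  obtain ⟨c, hc, hvol⟩ : ∃ c : ℝ, 0 < c ∧ ∀ (δ : ℝ) (e a : EuclideanSpace ℝ (Fin (m + 1))), 0 < δ →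
      ‖e‖ = 1 → ENNReal.ofReal (c * δ ^ m) ≤ volume (tube δ e a) :=
    Pool.Agent.H742R2.Kk.volume_tube m
  obtain ⟨C1, hC1, hcap⟩ := cap_weight (m := m)
  have hm0 : (0:ℝ) < m := by exact_mod_cast hm
  have hp0 : 0 < p := by linarith
  have hp1 : 0 < p - 1 := by linarith
  set b : ℝ := (m:ℝ) / (p - 1) with hb
  have hb0 : 0 ≤ b := by positivity
  set q : ℝ := p / (p - 1) with hq
  have hpq : p.HolderConjugate q := Real.HolderConjugate.conjExponent hp
  refine ⟨c ^ (-p) * (16 * 8 ^ m) ^ (p - 1) * C1, by positivity, ?_⟩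
  intro δ h hδ hh
  set W : EuclideanSpace ℝ (Fin (m + 1)) → ℝ≥0∞ := fun x => ENNReal.ofReal ((δ + ‖x‖) ^ m) with hW
  have hWm : Measurable W := by
    have : Continuous (fun x : EuclideanSpace ℝ (Fin (m + 1)) => (δ + ‖x‖) ^ m) := by fun_prop
    exact this.measurable.ennreal_ofReal
  have hW0 : ∀ x, W x ≠ 0 := fun x => by
    simp only [hW]
    rw [Ne, ENNReal.ofReal_eq_zero, not_le]; positivity
  have hWt : ∀ x, W x ≠ ∞ := fun x => ENNReal.ofReal_ne_top
  -- Hölder
  have hhol : ∀ e : sphere (0 : EuclideanSpace ℝ (Fin (m + 1))) 1,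
      cen δ h (e : EuclideanSpace ℝ (Fin (m + 1))) ^ p ≤
        ENNReal.ofReal ((c * δ ^ m) ^ (-p)) *
        (ENNReal.ofReal (16 * (8 * δ) ^ m) * wint δ b) ^ (p - 1) *
        ∫⁻ x in bigTube δ (e : EuclideanSpace ℝ (Fin (m + 1))), h x ^ p * W x := by
    intro e
    have he : ‖(e : EuclideanSpace ℝ (Fin (m + 1)))‖ = 1 := by simp
    set D := bigTube δ (e : EuclideanSpace ℝ (Fin (m + 1))) with hD
    have h1 : ∫⁻ x in D, h x ≤ (∫⁻ x in D, h x ^ p * W x) ^ (1 / p) *
        (∫⁻ x in D, ENNReal.ofReal ((δ + ‖x‖) ^ (-b))) ^ (1 / q) := by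
      have h2 := ENNReal.lintegral_mul_le_Lp_mul_Lq (volume.restrict D) hpq
        (f := fun x => h x * W x ^ (1 / p)) (g := fun x => W x ^ (-(1 / p)))
        (hh.mul (hWm.pow_const _)).aemeasurable (hWm.pow_const _).aemeasurable
      have h3 : ∀ x, h x * W x ^ (1 / p) * W x ^ (-(1 / p)) = h x := by
        intro x
        rw [mul_assoc, ← ENNReal.rpow_add _ _ (hW0 x) (hWt x), add_neg_cancel, ENNReal.rpow_zero, mul_one]
      have h4 : ∀ x, (h x * W x ^ (1 / p)) ^ p = h x ^ p * W x := by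
        intro x
        rw [ENNReal.mul_rpow_of_nonneg _ _ hp0.le, ← ENNReal.rpow_mul, one_div,
          inv_mul_cancel₀ hp0.ne', ENNReal.rpow_one]
      have h5 : ∀ x, (W x ^ (-(1 / p))) ^ q = ENNReal.ofReal ((δ + ‖x‖) ^ (-b)) := by
        intro x
        have hx : 0 < δ + ‖x‖ := by positivity
        simp only [hW]
        rw [← ENNReal.rpow_mul, ENNReal.ofReal_rpow_of_pos (by positivity), ← Real.rpow_natCast,
          ← Real.rpow_mul hx.le]
        congr 2
        rw [hb, hq]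
        field_simp
      simp only [Pi.mul_apply, h3, h4, h5] at h2
      exact h2
    have h6 : (∫⁻ x in D, h x) ^ p ≤ (∫⁻ x in D, h x ^ p * W x) *
        (ENNReal.ofReal (16 * (8 * δ) ^ m) * wint δ b) ^ (p - 1) := by
      calc (∫⁻ x in D, h x) ^ p ≤ ((∫⁻ x in D, h x ^ p * W x) ^ (1 / p) *
          (∫⁻ x in D, ENNReal.ofReal ((δ + ‖x‖) ^ (-b))) ^ (1 / q)) ^ p :=
            ENNReal.rpow_le_rpow h1 hp0.le
        _ = (∫⁻ x in D, h x ^ p * W x) *
            (∫⁻ x in D, ENNReal.ofReal ((δ + ‖x‖) ^ (-b))) ^ (p - 1) := by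
            rw [ENNReal.mul_rpow_of_nonneg _ _ hp0.le, ← ENNReal.rpow_mul, ← ENNReal.rpow_mul,
              one_div, inv_mul_cancel₀ hp0.ne', ENNReal.rpow_one]
            congr 2
            rw [hq]
            field_simp
        _ ≤ _ := by
            gcongr
            exact weight_bigTube hδ hb0 he
    unfold cen
    rw [ENNReal.mul_rpow_of_nonneg _ _ hp0.le]
    have h7 : ((volume (tube δ (e : EuclideanSpace ℝ (Fin (m + 1))) 0))⁻¹) ^ p ≤
        ENNReal.ofReal ((c * δ ^ m) ^ (-p)) := by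
      have h8 : (volume (tube δ (e : EuclideanSpace ℝ (Fin (m + 1))) 0))⁻¹ ≤
          ENNReal.ofReal ((c * δ ^ m)⁻¹) := by
        rw [ENNReal.ofReal_inv_of_pos (by positivity)]
        exact ENNReal.inv_le_inv.2 (hvol δ _ 0 hδ he)
      refine (ENNReal.rpow_le_rpow h8 hp0.le).trans (le_of_eq ?_)
      rw [ENNReal.ofReal_rpow_of_pos (by positivity), Real.inv_rpow (by positivity),
        Real.rpow_neg (by positivity)]
    calc _ ≤ ENNReal.ofReal ((c * δ ^ m) ^ (-p)) * ((∫⁻ x in D, h x ^ p * W x) *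
        (ENNReal.ofReal (16 * (8 * δ) ^ m) * wint δ b) ^ (p - 1)) := mul_le_mul' h7 h6
      _ = _ := by ring
  -- integration
  have hswap : ∫⁻ e : sphere (0 : EuclideanSpace ℝ (Fin (m + 1))) 1, (∫⁻ x in bigTube δ (e : EuclideanSpace ℝ (Fin (m + 1))), h x ^ p * W x) ∂(surf (m + 1)) ≤
      ENNReal.ofReal (C1 * δ ^ m) * ∫⁻ x, h x ^ p := by
    set P : Set (sphere (0 : EuclideanSpace ℝ (Fin (m + 1))) 1 × EuclideanSpace ℝ (Fin (m + 1))) :=
      {p | p.2 ∈ bigTube δ (p.1 : EuclideanSpace ℝ (Fin (m + 1)))} with hP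
    have hPm : MeasurableSet P := (isClosed_pairs δ).measurableSet
    have h1 : ∀ e : sphere (0 : EuclideanSpace ℝ (Fin (m + 1))) 1,
        ∫⁻ x in bigTube δ (e : EuclideanSpace ℝ (Fin (m + 1))), h x ^ p * W x =
        ∫⁻ x, P.indicator 1 (e, x) * (h x ^ p * W x) := by
      intro e
      rw [← lintegral_indicator (isClosed_bigTube δ _).measurableSet]
      congr 1
      ext x
      by_cases hx : x ∈ bigTube δ (e : EuclideanSpace ℝ (Fin (m + 1)))
      · rw [indicator_of_mem hx, indicator_of_mem (show (e, x) ∈ P from hx)]; simp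
      · rw [indicator_of_notMem hx, indicator_of_notMem (show (e, x) ∉ P from hx)]; simp
    simp only [h1]
    have hfm : Measurable (fun z : sphere (0 : EuclideanSpace ℝ (Fin (m + 1))) 1 ×
        EuclideanSpace ℝ (Fin (m + 1)) => P.indicator (1 : _ × _ → ℝ≥0∞) z * (h z.2 ^ p * W z.2)) :=
      (measurable_one.indicator hPm).mul (((hh.comp measurable_snd).pow_const p).mul
        (hWm.comp measurable_snd))
    have : IsFiniteMeasure (surf (m + 1)) := by unfold surf; infer_instance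
    rw [lintegral_lintegral_swap hfm.aemeasurable, ← lintegral_const_mul _ (hh.pow_const p)]
    apply lintegral_mono
    intro x
    have h2 : ∫⁻ e, P.indicator 1 (e, x) * (h x ^ p * W x) ∂(surf (m + 1)) =
        surf (m + 1) {e | x ∈ bigTube δ (e : EuclideanSpace ℝ (Fin (m + 1)))} * (h x ^ p * W x) := by
      have hcm : Measurable (fun e : sphere (0 : EuclideanSpace ℝ (Fin (m + 1))) 1 =>
          P.indicator (1 : _ × _ → ℝ≥0∞) (e, x)) :=
        (measurable_one.indicator hPm).comp measurable_prodMk_right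
      rw [lintegral_mul_const _ hcm]
      congr 1
      have hsm : MeasurableSet {e : sphere (0 : EuclideanSpace ℝ (Fin (m + 1))) 1 |
          x ∈ bigTube δ (e : EuclideanSpace ℝ (Fin (m + 1)))} := hPm.preimage measurable_prodMk_right
      rw [← lintegral_indicator_one hsm]
      rfl
    show ∫⁻ e, P.indicator 1 (e, x) * (h x ^ p * W x) ∂(surf (m + 1)) ≤ _
    rw [h2]
    calc surf (m + 1) {e | x ∈ bigTube δ (e : EuclideanSpace ℝ (Fin (m + 1)))} * (h x ^ p * W x)
        = (surf (m + 1) {e | x ∈ bigTube δ (e : EuclideanSpace ℝ (Fin (m + 1)))} * W x) * h x ^ p := by ring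
      _ ≤ _ := mul_le_mul_left (hcap hδ x) _
  calc ∫⁻ e, cen δ h (e : EuclideanSpace ℝ (Fin (m + 1))) ^ p ∂(surf (m + 1))
      ≤ ∫⁻ e, ENNReal.ofReal ((c * δ ^ m) ^ (-p)) *
        (ENNReal.ofReal (16 * (8 * δ) ^ m) * wint δ b) ^ (p - 1) *
        (∫⁻ x in bigTube δ (e : EuclideanSpace ℝ (Fin (m + 1))), h x ^ p * W x) ∂(surf (m + 1)) :=
        lintegral_mono hhol
    _ ≤ ENNReal.ofReal ((c * δ ^ m) ^ (-p)) *
        (ENNReal.ofReal (16 * (8 * δ) ^ m) * wint δ b) ^ (p - 1) *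
        ∫⁻ e : sphere (0 : EuclideanSpace ℝ (Fin (m + 1))) 1, (∫⁻ x in bigTube δ (e : EuclideanSpace ℝ (Fin (m + 1))), h x ^ p * W x) ∂(surf (m + 1)) := by
        refine le_of_eq (lintegral_const_mul' _ _ ?_)
        refine ENNReal.mul_ne_top ENNReal.ofReal_ne_top ?_
        exact ENNReal.rpow_ne_top_of_nonneg hp1.le (ENNReal.mul_ne_top ENNReal.ofReal_ne_top
          (wint_ne_top hδ hb0))
    _ ≤ ENNReal.ofReal ((c * δ ^ m) ^ (-p)) *
        (ENNReal.ofReal (16 * (8 * δ) ^ m) * wint δ b) ^ (p - 1) *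
        (ENNReal.ofReal (C1 * δ ^ m) * ∫⁻ x, h x ^ p) := by gcongr
    _ = _ := by
        rw [ENNReal.mul_rpow_of_nonneg _ _ hp1.le, ENNReal.ofReal_rpow_of_pos (by positivity)]
        have e1 : ENNReal.ofReal ((c * δ ^ m) ^ (-p)) * ENNReal.ofReal ((16 * (8 * δ) ^ m) ^ (p - 1)) *
            ENNReal.ofReal (C1 * δ ^ m) = ENNReal.ofReal (c ^ (-p) * (16 * 8 ^ m) ^ (p - 1) * C1) := by
          rw [← ENNReal.ofReal_mul (by positivity), ← ENNReal.ofReal_mul (by positivity)]
          congr 1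
          have h1 : (0:ℝ) < δ ^ m := by positivity
          rw [Real.mul_rpow hc.le h1.le, mul_pow, ← mul_assoc 16 (8 ^ m) (δ ^ m),
            Real.mul_rpow (by positivity) h1.le]
          have h2 : (δ ^ m) ^ (-p) * (δ ^ m) ^ (p - 1) * δ ^ m = 1 := by
            rw [← Real.rpow_add h1]
            nth_rewrite 2 [← Real.rpow_one (δ ^ m)]
            rw [← Real.rpow_add h1]
            have : -p + (p - 1) + 1 = 0 := by ring
            rw [this, Real.rpow_zero]
          calc c ^ (-p) * (δ ^ m) ^ (-p) * ((16 * 8 ^ m) ^ (p - 1) * (δ ^ m) ^ (p - 1)) * (C1 * δ ^ m)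
              = c ^ (-p) * (16 * 8 ^ m) ^ (p - 1) * C1 *
                ((δ ^ m) ^ (-p) * (δ ^ m) ^ (p - 1) * δ ^ m) := by ring
            _ = _ := by rw [h2, mul_one]
        rw [← e1]
        ring

end Pool.Agent.Q97.KF
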