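import Pool.Agent.Q97.KF.Cen

set_option autoImplicit false

/-!
The loss in the estimates for centred averages.
-/

open MeasureTheory Set Filter Topology ENNReal NNReal Metric

namespace Pool.Agent.Q97.KF

theorem wint_eq {δ b : ℝ} (hδ : 0 < δ) : wint δ b = ENNReal.ofReal (∫ s in (0:ℝ)..1, (δ + s) ^ (-b)) := by
  unfold wint
  rw [intervalIntegral.integral_of_le zero_le_one, ← integral_Icc_eq_integral_Ioc,
    ofReal_integral_eq_lintegral_ofReal]
  · apply ContinuousOn.integrableOn_Icc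
    intro s hs
    have h1 : 0 < δ + s := by linarith [hs.1]
    exact (ContinuousAt.rpow_const (by fun_prop) (Or.inl h1.ne')).continuousWithinAt
  · filter_upwards [ae_restrict_mem measurableSet_Icc] with s hs
    have h1 : 0 < δ + s := by linarith [hs.1]
    positivity

theorem wint_val {δ b : ℝ} (hδ : 0 < δ) (hb : b ≠ 1) :
    wint δ b = ENNReal.ofReal (((δ + 1) ^ (1 - b) - δ ^ (1 - b)) / (1 - b)) := by
  rw [wint_eq hδ, intervalIntegral.integral_comp_add_left (fun x : ℝ => x ^ (-b)) δ, add_zero,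
    integral_rpow]
  · have : -b + 1 = 1 - b := by ring
    rw [this]
  · right
    refine ⟨by intro h; apply hb; linarith, ?_⟩
    rw [uIcc_of_le (by linarith)]
    intro h
    linarith [h.1]

theorem wint_lt {δ b : ℝ} (hδ : 0 < δ) (hδ1 : δ < 1) (hb1 : b < 1) :
    wint δ b ≤ ENNReal.ofReal (2 / (1 - b) * 2 ^ |b|) := by
  rw [wint_val hδ hb1.ne]
  apply ENNReal.ofReal_le_ofReal
  have h1 : 0 < 1 - b := by linarith
  have h2 : (0:ℝ) ≤ δ ^ (1 - b) := by positivity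
  have h3 : (δ + 1) ^ (1 - b) ≤ 2 ^ (1 - b) := Real.rpow_le_rpow (by positivity) (by linarith) h1.le
  have h4 : (2:ℝ) ^ (1 - b) ≤ 2 * 2 ^ |b| := by
    rw [sub_eq_add_neg, Real.rpow_add (by norm_num), Real.rpow_one]
    gcongr
    · norm_num
    · exact neg_le_abs b
  calc ((δ + 1) ^ (1 - b) - δ ^ (1 - b)) / (1 - b) ≤ (2 * 2 ^ |b|) / (1 - b) := by
        gcongr
        linarith
    _ = _ := by ring

theorem wint_one {δ : ℝ} (hδ : 0 < δ) (hδ1 : δ < 1) :
    wint δ 1 ≤ ENNReal.ofReal (1 + Real.log (1 / δ)) := by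
  rw [wint_eq hδ]
  apply ENNReal.ofReal_le_ofReal
  have h1 : ∀ s : ℝ, (δ + s) ^ (-(1:ℝ)) = (δ + s)⁻¹ := fun s => Real.rpow_neg_one _
  simp only [h1]
  rw [intervalIntegral.integral_comp_add_left (fun x : ℝ => x⁻¹) δ, add_zero,
    integral_inv_of_pos hδ (by linarith)]
  rw [div_eq_mul_one_div, Real.log_mul (by positivity) (by positivity)]
  have h2 : Real.log (δ + 1) ≤ Real.log 2 := Real.log_le_log (by positivity) (by linarith)
  have h3 : Real.log 2 < 1 := by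
    have := Real.log_two_lt_d9
    linarith
  linarith

theorem wint_gt {δ b : ℝ} (hδ : 0 < δ) (hb1 : 1 < b) :
    wint δ b ≤ ENNReal.ofReal (1 / (b - 1) * δ ^ (1 - b)) := by
  rw [wint_val hδ hb1.ne']
  apply ENNReal.ofReal_le_ofReal
  have h1 : 0 < b - 1 := by linarith
  have h2 : (0:ℝ) ≤ (δ + 1) ^ (1 - b) := by positivity
  have h3 : ((δ + 1) ^ (1 - b) - δ ^ (1 - b)) / (1 - b) =
      (δ ^ (1 - b) - (δ + 1) ^ (1 - b)) / (b - 1) := by
    rw [← neg_sub (b) 1, div_neg, ← neg_div, neg_sub]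
  rw [h3, div_mul_eq_mul_div, one_mul]
  gcongr
  linarith

/-- the loss at the scale `δ` for the exponent `p` in dimension `n` -/
noncomputable def loss (n : ℕ) (p δ : ℝ) : ℝ :=
  if (n:ℝ) < p then 1 else if p = n then (1 + Real.log (1 / δ)) ^ (n - 1) else δ ^ (-((n:ℝ) - p))

theorem loss_bound {m : ℕ} (hm : 1 ≤ m) {p : ℝ} (hp : 1 < p) : ∃ C : ℝ, 0 < C ∧ ∀ δ : ℝ, 0 < δ → δ < 1 →
    wint δ ((m:ℝ) / (p - 1)) ^ (p - 1) ≤ ENNReal.ofReal (C * loss (m + 1) p δ) := by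
  have hm0 : (0:ℝ) < m := by exact_mod_cast hm
  have hp1 : 0 < p - 1 := by linarith
  rcases lt_trichotomy p ((m + 1 : ℕ) : ℝ) with h | h | h
  · -- p < n
    have h' : p < (m:ℝ) + 1 := by push_cast at h; exact h
    have hb : 1 < (m:ℝ) / (p - 1) := by rw [lt_div_iff₀ hp1]; linarith
    refine ⟨(1 / ((m:ℝ) / (p - 1) - 1)) ^ (p - 1), by
      have : 0 < (m:ℝ) / (p - 1) - 1 := by linarith
      positivity, ?_⟩
    intro δ hδ hδ1
    have h1 : 0 < (m:ℝ) / (p - 1) - 1 := by linarith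
    refine (ENNReal.rpow_le_rpow (wint_gt hδ hb) hp1.le).trans (le_of_eq ?_)
    rw [ENNReal.ofReal_rpow_of_pos (by positivity), Real.mul_rpow (by positivity) (by positivity)]
    congr 2
    unfold loss
    rw [if_neg (by linarith), if_neg h.ne, ← Real.rpow_mul hδ.le]
    congr 1
    push_cast
    field_simp
    ring
  · -- p = n
    have h' : p - 1 = m := by rw [h]; push_cast; ring
    refine ⟨1, one_pos, ?_⟩
    intro δ hδ hδ1
    have hlog : 0 < Real.log (1 / δ) := Real.log_pos (by rw [lt_div_iff₀ hδ]; linarith)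
    rw [h', div_self hm0.ne']
    refine (ENNReal.rpow_le_rpow (wint_one hδ hδ1) hm0.le).trans (le_of_eq ?_)
    rw [ENNReal.ofReal_rpow_of_pos (by positivity), one_mul]
    congr 1
    unfold loss
    rw [if_neg (by rw [h]; exact lt_irrefl _), if_pos h, Real.rpow_natCast, Nat.add_sub_cancel]
  · -- p > n
    have h' : (m:ℝ) + 1 < p := by push_cast at h; exact h
    have hb : (m:ℝ) / (p - 1) < 1 := by rw [div_lt_one hp1]; linarith
    refine ⟨(2 / (1 - (m:ℝ) / (p - 1)) * 2 ^ |(m:ℝ) / (p - 1)|) ^ (p - 1), by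
      have : 0 < 1 - (m:ℝ) / (p - 1) := by linarith
      positivity, ?_⟩
    intro δ hδ hδ1
    have h1 : 0 < 1 - (m:ℝ) / (p - 1) := by linarith
    refine (ENNReal.rpow_le_rpow (wint_lt hδ hδ1 hb) hp1.le).trans (le_of_eq ?_)
    rw [ENNReal.ofReal_rpow_of_pos (by positivity)]
    congr 1
    unfold loss
    rw [if_pos h, mul_one]

/-- **Centred averages**, final form. -/
theorem centered_loss {m : ℕ} (hm : 1 ≤ m) {p : ℝ} (hp : 1 < p) : ∃ C : ℝ, 0 < C ∧ ∀ (δ : ℝ)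
    (h : EuclideanSpace ℝ (Fin (m + 1)) → ℝ≥0∞), 0 < δ → δ < 1 → Measurable h →
    ∫⁻ e, cen δ h (e : EuclideanSpace ℝ (Fin (m + 1))) ^ p ∂(Pool.Agent.Q97.KD.surf (m + 1)) ≤
      ENNReal.ofReal (C * loss (m + 1) p δ) * ∫⁻ x, h x ^ p := by
  obtain ⟨C1, hC1, h1⟩ := centered hm hp
  obtain ⟨C2, hC2, h2⟩ := loss_bound hm hp
  refine ⟨C1 * C2, by positivity, ?_⟩
  intro δ h hδ hδ1 hh
  refine (h1 δ h hδ hh).trans ?_
  rw [mul_assoc C1, ENNReal.ofReal_mul hC1.le]
  gcongr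
  exact h2 δ hδ hδ1

end Pool.Agent.Q97.KF
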