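import Pool.Agent.Q97.KF.Loss
import Pool.Agent.Q97.RS.Pos

set_option autoImplicit false

/-!
Domination of the Kakeya maximal function by centred averages of the Fourier majorant.
-/

open MeasureTheory Set Filter Topology ENNReal NNReal Metric
open scoped ComplexConjugate Pointwise

namespace Pool.Agent.Q97.KF

open Pool.Agent.W770.SA (tube kakeyaMax)
open Pool.Agent.Q97.RS

variable {n : ℕ}

theorem Fh_continuous (ν : Measure (EuclideanSpace ℝ (Fin n))) [IsFiniteMeasure ν]
    {u : EuclideanSpace ℝ (Fin n) → ℂ} (hu : Measurable u) (hu1 : ∀ ξ, ‖u ξ‖ ≤ 1) :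
    Continuous (Fh ν u) := by
  unfold Fh
  refine continuous_of_dominated (bound := fun _ => (1:ℝ)) ?_ ?_ (integrable_const _) ?_
  · intro x
    exact ((ch_cont' x).measurable.mul hu).aestronglyMeasurable
  · intro x
    refine Eventually.of_forall fun ξ => ?_
    rw [norm_mul, ch_norm, one_mul]
    exact hu1 ξ
  · refine Eventually.of_forall fun ξ => ?_
    exact (ch_cont'' ξ).mul continuous_const

/-- the averages over differences -/
theorem avg_first (ν lam : Measure (EuclideanSpace ℝ (Fin n))) [IsFiniteMeasure ν]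
    [IsFiniteMeasure lam] {u : EuclideanSpace ℝ (Fin n) → ℂ} (hu : Measurable u)
    (hu1 : ∀ ξ, ‖u ξ‖ ≤ 1) (w : EuclideanSpace ℝ (Fin n)) :
    ∫ q : EuclideanSpace ℝ (Fin n) × EuclideanSpace ℝ (Fin n), Fh ν u (w + q.1 - q.2) ∂(lam.prod lam) =
      ∫ ξ, u ξ * ch ξ w * ((‖Fh lam (fun _ => 1) ξ‖ ^ 2 : ℝ) : ℂ) ∂ν := by
  unfold Fh
  rw [integral_integral_swap]
  · refine integral_congr_ae (Eventually.of_forall fun ξ => ?_)
    simp only
    have e2 : ∀ q : EuclideanSpace ℝ (Fin n) × EuclideanSpace ℝ (Fin n),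
        ch ξ (w + q.1 - q.2) * u ξ = (u ξ * ch ξ w) * (ch ξ q.1 * conj (ch ξ q.2)) := by
      intro q
      rw [ch_sub_right, ch_add]
      ring
    simp_rw [e2]
    rw [integral_const_mul]
    congr 1
    rw [integral_prod_mul (fun x => ch ξ x) (fun y => conj (ch ξ y)), integral_conj]
    have e3 : ∫ x, ch ξ x ∂lam = Fh lam (fun _ => 1) ξ := by
      unfold Fh
      refine integral_congr_ae (Eventually.of_forall fun x => ?_)
      simp only
      rw [mul_one, ch_swap]
    rw [e3, Complex.mul_conj, Complex.normSq_eq_norm_sq]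
    rfl
  · refine Integrable.of_bound ?_ 1 (Eventually.of_forall fun r => ?_)
    · refine Measurable.aestronglyMeasurable ?_
      have m1 : Measurable fun r : (EuclideanSpace ℝ (Fin n) × EuclideanSpace ℝ (Fin n)) ×
          EuclideanSpace ℝ (Fin n) => ch r.2 (w + r.1.1 - r.1.2) := by
        have : Continuous fun r : (EuclideanSpace ℝ (Fin n) × EuclideanSpace ℝ (Fin n)) ×
          EuclideanSpace ℝ (Fin n) => ch r.2 (w + r.1.1 - r.1.2) := by
          unfold ch
          fun_prop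
        exact this.measurable
      exact m1.mul (hu.comp measurable_snd)
    · simp only [Function.uncurry]
      rw [norm_mul, ch_norm, one_mul]
      exact hu1 _

theorem avg_first_le (ν lam : Measure (EuclideanSpace ℝ (Fin n))) [IsFiniteMeasure ν]
    [IsFiniteMeasure lam] {u : EuclideanSpace ℝ (Fin n) → ℂ} (hu : Measurable u)
    (hu1 : ∀ ξ, ‖u ξ‖ ≤ 1) (w : EuclideanSpace ℝ (Fin n)) :
    ‖∫ q : EuclideanSpace ℝ (Fin n) × EuclideanSpace ℝ (Fin n), Fh ν u (w + q.1 - q.2) ∂(lam.prod lam)‖ ≤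
      ‖∫ q : EuclideanSpace ℝ (Fin n) × EuclideanSpace ℝ (Fin n),
        Fh ν (fun _ => 1) (q.1 - q.2) ∂(lam.prod lam)‖ := by
  have h1 := avg_first ν lam hu hu1 w
  have h2 := avg_first ν lam (u := fun _ => 1) measurable_const (fun _ => by simp) 0
  simp only [zero_add] at h2
  rw [h1, h2]
  have h3 : ∀ ξ : EuclideanSpace ℝ (Fin n), (1:ℂ) * ch ξ 0 * ((‖Fh lam (fun _ => 1) ξ‖ ^ 2 : ℝ) : ℂ) =
      ((‖Fh lam (fun _ => 1) ξ‖ ^ 2 : ℝ) : ℂ) := by
    intro ξ
    have : ch ξ (0 : EuclideanSpace ℝ (Fin n)) = 1 := by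
      unfold ch
      simp
    rw [this, mul_one, one_mul]
  simp only [h3]
  rw [integral_complex_ofReal, Complex.norm_real, Real.norm_eq_abs,
    abs_of_nonneg (integral_nonneg fun ξ => by positivity)]
  refine (norm_integral_le_integral_norm _).trans ?_
  have hint : Integrable (fun ξ : EuclideanSpace ℝ (Fin n) => ‖Fh lam (fun _ => 1) ξ‖ ^ 2) ν := by
    refine Integrable.of_bound ?_ ((1 * lam.real univ) ^ 2) (Eventually.of_forall fun ξ => ?_)
    · exact ((Fh_meas lam measurable_const).norm.pow 2).aestronglyMeasurable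
    · rw [Real.norm_eq_abs, abs_of_nonneg (by positivity)]
      exact pow_le_pow_left₀ (norm_nonneg _) (Fh_norm_le lam (fun _ => by simp) ξ) 2
  refine integral_mono_of_nonneg (Eventually.of_forall fun ξ => norm_nonneg _) hint
    (Eventually.of_forall fun ξ => ?_)
  simp only
  rw [norm_mul, norm_mul, ch_norm, mul_one, Complex.norm_real, Real.norm_eq_abs,
    abs_of_nonneg (by positivity)]
  exact mul_le_of_le_one_left (by positivity) (hu1 ξ)

/-- the centred tube of length `2` and radius `2 δ` -/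
def midTube (δ : ℝ) (e : EuclideanSpace ℝ (Fin n)) : Set (EuclideanSpace ℝ (Fin n)) :=
  {y | |inner ℝ y e| ≤ 1 ∧ ‖y - (inner ℝ y e : ℝ) • e‖ ≤ 2 * δ}

theorem isClosed_midTube (δ : ℝ) (e : EuclideanSpace ℝ (Fin n)) : IsClosed (midTube δ e) := by
  have h1 : Continuous (fun y : EuclideanSpace ℝ (Fin n) => |inner ℝ y e|) := by fun_prop
  have h2 : Continuous (fun y : EuclideanSpace ℝ (Fin n) => ‖y - (inner ℝ y e : ℝ) • e‖) := by
    fun_prop
  exact (isClosed_le h1 continuous_const).inter (isClosed_le h2 continuous_const)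

theorem volume_midTube_le (δ : ℝ) (e : EuclideanSpace ℝ (Fin n)) :
    volume (midTube δ e) ≤ 2 ^ n * volume (tube δ e 0) := by
  have h1 : midTube δ e ⊆ (2:ℝ) • tube δ e 0 := by
    rintro y ⟨h1, h2⟩
    rw [mem_smul_set]
    refine ⟨(1/2:ℝ) • y, ⟨?_, ?_⟩, ?_⟩
    · rw [sub_zero, inner_smul_left, abs_mul]
      simp only [conj_trivial]
      rw [abs_of_pos (by norm_num : (0:ℝ) < 1/2)]
      linarith
    · rw [sub_zero, inner_smul_left]
      simp only [conj_trivial]
      rw [mul_smul, ← smul_sub, norm_smul, Real.norm_eq_abs, abs_of_pos (by norm_num : (0:ℝ) < 1/2)]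
      linarith
    · rw [smul_smul]; norm_num
  refine (measure_mono h1).trans (le_of_eq ?_)
  rw [Measure.addHaar_smul, finrank_euclideanSpace_fin, abs_of_pos (by positivity),
    ENNReal.ofReal_pow (by norm_num)]
  simp

theorem inner_add_perp {x y e : EuclideanSpace ℝ (Fin n)} :
    (x + y) - (inner ℝ (x + y) e : ℝ) • e = (x - (inner ℝ x e : ℝ) • e) + (y - (inner ℝ y e : ℝ) • e) := by
  rw [inner_add_left, add_smul]; abel

theorem inner_sub_perp {x y e : EuclideanSpace ℝ (Fin n)} :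
    (x - y) - (inner ℝ (x - y) e : ℝ) • e = (x - (inner ℝ x e : ℝ) • e) - (y - (inner ℝ y e : ℝ) • e) := by
  rw [inner_sub_left, sub_smul]; abel

/-- lower bound for the averages over differences -/
theorem lower (δ : ℝ) (e a : EuclideanSpace ℝ (Fin n)) {Φ : EuclideanSpace ℝ (Fin n) → ℝ≥0∞}
    (hΦ : Measurable Φ) :
    volume (tube δ e 0) * ∫⁻ x in tube δ e a, Φ x ≤
      ∫⁻ q : EuclideanSpace ℝ (Fin n) × EuclideanSpace ℝ (Fin n), Φ (a + q.1 - q.2)
        ∂((volume.restrict (midTube δ e)).prod (volume.restrict (midTube δ e))) := by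
  have hBm : MeasurableSet (midTube δ e) := (isClosed_midTube δ e).measurableSet
  have hTm : ∀ b, MeasurableSet (tube δ e b) := fun b =>
    (Pool.Agent.W770.SA.isClosed_tube δ e b).measurableSet
  have hm : Measurable (fun q : EuclideanSpace ℝ (Fin n) × EuclideanSpace ℝ (Fin n) =>
      Φ (a + q.1 - q.2)) := hΦ.comp ((measurable_fst.const_add a).sub measurable_snd)
  have hsub : tube δ e 0 ⊆ midTube δ e := by
    rintro y ⟨h1, h2⟩
    rw [sub_zero] at h1 h2
    exact ⟨by linarith, by linarith [norm_nonneg (y - (inner ℝ y e : ℝ) • e)]⟩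
  rw [lintegral_prod_symm _ hm.aemeasurable]
  calc volume (tube δ e 0) * ∫⁻ x in tube δ e a, Φ x
      = ∫⁻ _q2 in tube δ e 0, (∫⁻ x in tube δ e a, Φ x) := by rw [setLIntegral_const, mul_comm]
    _ ≤ ∫⁻ q2 in tube δ e 0, (∫⁻ q1 in midTube δ e, Φ (a + q1 - q2)) := by
        apply setLIntegral_mono' (hTm 0)
        intro q2 hq2
        have h1 := lintegral_add_right_eq_self (μ := (volume : Measure (EuclideanSpace ℝ (Fin n))))
          (fun x => (tube δ e a).indicator Φ x) (a - q2)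
        rw [← lintegral_indicator (hTm a), ← h1, ← lintegral_indicator hBm]
        apply lintegral_mono
        intro x
        by_cases hx : x + (a - q2) ∈ tube δ e a
        · have h2 : x ∈ midTube δ e := by
            obtain ⟨h3, h4⟩ := hx
            obtain ⟨h5, h6⟩ := hq2
            rw [sub_zero] at h5 h6
            have e1 : x + (a - q2) - a = x - q2 := by abel
            rw [e1] at h3 h4
            have e2 : x = (x - q2) + q2 := by abel
            refine ⟨?_, ?_⟩
            · rw [e2, inner_add_left]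
              refine (abs_add_le _ _).trans (by linarith)
            · rw [e2, inner_add_perp]
              refine (norm_add_le _ _).trans (by linarith)
          simp only
          rw [indicator_of_mem hx, indicator_of_mem h2]
          have e3 : x + (a - q2) = a + x - q2 := by abel
          rw [e3]
        · simp only
          rw [indicator_of_notMem hx]
          exact zero_le
    _ ≤ _ := lintegral_mono_set hsub

/-- upper bound for the averages over differences -/
theorem upper (δ : ℝ) (e : EuclideanSpace ℝ (Fin n)) {Φ : EuclideanSpace ℝ (Fin n) → ℝ≥0∞}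
    (hΦ : Measurable Φ) :
    ∫⁻ q : EuclideanSpace ℝ (Fin n) × EuclideanSpace ℝ (Fin n), Φ (q.1 - q.2)
        ∂((volume.restrict (midTube δ e)).prod (volume.restrict (midTube δ e))) ≤
      volume (midTube δ e) * ∫⁻ x in bigTube δ e, Φ x := by
  have hBm : MeasurableSet (midTube δ e) := (isClosed_midTube δ e).measurableSet
  have hDm : MeasurableSet (bigTube δ e) := (isClosed_bigTube δ e).measurableSet
  have hm : Measurable (fun q : EuclideanSpace ℝ (Fin n) × EuclideanSpace ℝ (Fin n) =>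
      Φ (q.1 - q.2)) := hΦ.comp (measurable_fst.sub measurable_snd)
  rw [lintegral_prod_symm _ hm.aemeasurable]
  calc ∫⁻ q2 in midTube δ e, (∫⁻ q1 in midTube δ e, Φ (q1 - q2))
      ≤ ∫⁻ _q2 in midTube δ e, (∫⁻ x in bigTube δ e, Φ x) := by
        apply setLIntegral_mono' hBm
        intro q2 hq2
        have h1 := lintegral_add_right_eq_self (μ := (volume : Measure (EuclideanSpace ℝ (Fin n))))
          (fun x => (bigTube δ e).indicator Φ x) (-q2)
        rw [← lintegral_indicator hBm, ← lintegral_indicator hDm, ← h1]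
        apply lintegral_mono
        intro x
        by_cases hx : x ∈ midTube δ e
        · have h2 : x + -q2 ∈ bigTube δ e := by
            obtain ⟨h3, h4⟩ := hx
            obtain ⟨h5, h6⟩ := hq2
            rw [← sub_eq_add_neg]
            refine ⟨?_, ?_⟩
            · rw [inner_sub_left]
              refine (abs_sub _ _).trans (by linarith)
            · rw [inner_sub_perp]
              refine (norm_sub_le _ _).trans (by linarith)
          simp only
          rw [indicator_of_mem hx, indicator_of_mem h2, sub_eq_add_neg]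
        · simp only
          rw [indicator_of_notMem hx]
          exact zero_le
    _ = _ := by rw [setLIntegral_const, mul_comm]

/-- **Domination by centred averages.** -/
theorem domination {m : ℕ} {δ : ℝ} (hδ : 0 < δ)
    (ν : Measure (EuclideanSpace ℝ (Fin (m + 1)))) [IsFiniteMeasure ν]
    {u : EuclideanSpace ℝ (Fin (m + 1)) → ℂ} (hu : Measurable u) (hu1 : ∀ ξ, ‖u ξ‖ ≤ 1)
    {f : EuclideanSpace ℝ (Fin (m + 1)) → ℝ} (hf : ∀ᵐ x, |f x| ≤ (Fh ν u x).re)
    {e : EuclideanSpace ℝ (Fin (m + 1))} (he : ‖e‖ = 1) :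
    kakeyaMax δ f e ≤ 2 ^ (m + 1) * cen δ (fun x => ‖Fh ν (fun _ => 1) x‖ₑ) e := by
  have hcont := Fh_continuous ν hu hu1
  have hcont1 := Fh_continuous ν (u := fun _ => 1) measurable_const (fun _ => by simp)
  -- the real part is nonnegative
  have hnn : ∀ x, 0 ≤ (Fh ν u x).re := by
    have hcl : IsClosed {x | 0 ≤ (Fh ν u x).re} :=
      isClosed_le continuous_const (Complex.continuous_re.comp hcont)
    have hd : Dense {x | 0 ≤ (Fh ν u x).re} := by
      apply Measure.dense_of_ae (μ := volume)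
      filter_upwards [hf] with x hx
      exact (abs_nonneg _).trans hx
    intro x
    have : x ∈ closure {x | 0 ≤ (Fh ν u x).re} := hd x
    rwa [hcl.closure_eq] at this
  set lam : Measure (EuclideanSpace ℝ (Fin (m + 1))) := volume.restrict (midTube δ e) with hlam
  have hT0 : volume (tube δ e 0) ≠ 0 := by
    obtain ⟨c, hc, hvol⟩ := Pool.Agent.H742R2.Kk.volume_tube m
    have h1 : 0 < ENNReal.ofReal (c * δ ^ m) := ENNReal.ofReal_pos.2 (by positivity)
    exact (lt_of_lt_of_le h1 (hvol δ e 0 hδ he)).ne'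
  have hTt : volume (tube δ e 0) ≠ ∞ := (Pool.Agent.W770.SA.volume_tube_lt_top he).ne
  have hBt : volume (midTube δ e) ≠ ∞ := by
    refine ((volume_midTube_le δ e).trans_lt ?_).ne
    exact ENNReal.mul_lt_top (by simp) hTt.lt_top
  have : IsFiniteMeasure lam := ⟨by rw [hlam, Measure.restrict_apply_univ]; exact hBt.lt_top⟩
  have hΦ : Measurable (fun x => ENNReal.ofReal (Fh ν u x).re) :=
    (Complex.measurable_re.comp hcont.measurable).ennreal_ofReal
  have hG : Measurable (fun x => ‖Fh ν (fun _ => 1) x‖ₑ) := hcont1.measurable.enorm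
  have key : ∀ a, ∫⁻ x in tube δ e a, ‖f x‖ₑ ≤ 2 ^ (m + 1) *
      ∫⁻ x in bigTube δ e, ‖Fh ν (fun _ => 1) x‖ₑ := by
    intro a
    have h1 : ∫⁻ x in tube δ e a, ‖f x‖ₑ ≤ ∫⁻ x in tube δ e a, ENNReal.ofReal (Fh ν u x).re := by
      apply lintegral_mono_ae
      filter_upwards [ae_restrict_of_ae hf] with x hx
      rw [Pool.Agent.W770.SA.enorm_eq]
      exact ENNReal.ofReal_le_ofReal hx
    have h2 := lower δ e a hΦ
    have h3 : ∫⁻ q : EuclideanSpace ℝ (Fin (m + 1)) × EuclideanSpace ℝ (Fin (m + 1)),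
        ENNReal.ofReal (Fh ν u (a + q.1 - q.2)).re ∂(lam.prod lam) ≤
        ∫⁻ q : EuclideanSpace ℝ (Fin (m + 1)) × EuclideanSpace ℝ (Fin (m + 1)),
        ‖Fh ν (fun _ => 1) (q.1 - q.2)‖ₑ ∂(lam.prod lam) := by
      have hint : Integrable (fun q : EuclideanSpace ℝ (Fin (m + 1)) × EuclideanSpace ℝ (Fin (m + 1)) =>
          Fh ν u (a + q.1 - q.2)) (lam.prod lam) := by
        refine Integrable.of_bound ?_ (1 * ν.real univ) (Eventually.of_forall fun q => ?_)
        · exact (hcont.comp (by fun_prop)).aestronglyMeasurable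
        · exact Fh_norm_le ν hu1 _
      have hintr : Integrable (fun q : EuclideanSpace ℝ (Fin (m + 1)) × EuclideanSpace ℝ (Fin (m + 1)) =>
          (Fh ν u (a + q.1 - q.2)).re) (lam.prod lam) := hint.re
      rw [← ofReal_integral_eq_lintegral_ofReal hintr (Eventually.of_forall fun q => hnn _)]
      have h4 : ∫ q : EuclideanSpace ℝ (Fin (m + 1)) × EuclideanSpace ℝ (Fin (m + 1)),
          (Fh ν u (a + q.1 - q.2)).re ∂(lam.prod lam) =
          (∫ q : EuclideanSpace ℝ (Fin (m + 1)) × EuclideanSpace ℝ (Fin (m + 1)),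
            Fh ν u (a + q.1 - q.2) ∂(lam.prod lam)).re := integral_re hint
      calc ENNReal.ofReal (∫ q : EuclideanSpace ℝ (Fin (m + 1)) × EuclideanSpace ℝ (Fin (m + 1)),
            (Fh ν u (a + q.1 - q.2)).re ∂(lam.prod lam))
          ≤ ENNReal.ofReal ‖∫ q : EuclideanSpace ℝ (Fin (m + 1)) × EuclideanSpace ℝ (Fin (m + 1)),
            Fh ν u (a + q.1 - q.2) ∂(lam.prod lam)‖ := by
            apply ENNReal.ofReal_le_ofReal
            rw [h4]
            exact (le_abs_self _).trans (Complex.abs_re_le_norm _)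
        _ ≤ ENNReal.ofReal ‖∫ q : EuclideanSpace ℝ (Fin (m + 1)) × EuclideanSpace ℝ (Fin (m + 1)),
              Fh ν (fun _ => 1) (q.1 - q.2) ∂(lam.prod lam)‖ :=
            ENNReal.ofReal_le_ofReal (avg_first_le ν lam hu hu1 a)
        _ = ‖∫ q : EuclideanSpace ℝ (Fin (m + 1)) × EuclideanSpace ℝ (Fin (m + 1)),
              Fh ν (fun _ => 1) (q.1 - q.2) ∂(lam.prod lam)‖ₑ := ofReal_norm _
        _ ≤ _ := enorm_integral_le_lintegral_enorm _
    have h5 := upper δ e hG
    have h6 : volume (tube δ e 0) * ∫⁻ x in tube δ e a, ‖f x‖ₑ ≤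
        volume (tube δ e 0) * (2 ^ (m + 1) * ∫⁻ x in bigTube δ e, ‖Fh ν (fun _ => 1) x‖ₑ) := by
      calc volume (tube δ e 0) * ∫⁻ x in tube δ e a, ‖f x‖ₑ
          ≤ volume (tube δ e 0) * ∫⁻ x in tube δ e a, ENNReal.ofReal (Fh ν u x).re := by gcongr
        _ ≤ volume (midTube δ e) * ∫⁻ x in bigTube δ e, ‖Fh ν (fun _ => 1) x‖ₑ :=
            h2.trans (h3.trans h5)
        _ ≤ (2 ^ (m + 1) * volume (tube δ e 0)) * ∫⁻ x in bigTube δ e, ‖Fh ν (fun _ => 1) x‖ₑ := by
            gcongr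
            exact volume_midTube_le δ e
        _ = _ := by ring
    exact (ENNReal.mul_le_mul_iff_right hT0 hTt).1 h6
  apply iSup_le
  intro a
  rw [Pool.Agent.W770.SA.volume_tube_translate δ e a 0]
  unfold cen
  calc (volume (tube δ e 0))⁻¹ * ∫⁻ y in tube δ e a, ‖f y‖ₑ
      ≤ (volume (tube δ e 0))⁻¹ * (2 ^ (m + 1) * ∫⁻ x in bigTube δ e, ‖Fh ν (fun _ => 1) x‖ₑ) := by
        gcongr
        exact key a
    _ = _ := by ring

/-- **The maximal estimates with the Fourier majorant.** -/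
theorem majorant {m : ℕ} (hm : 1 ≤ m) {p : ℝ} (hp : 1 < p) : ∃ C : ℝ, 0 < C ∧
    ∀ (ν : Measure (EuclideanSpace ℝ (Fin (m + 1)))) [IsFiniteMeasure ν]
    (u : EuclideanSpace ℝ (Fin (m + 1)) → ℂ) (f : EuclideanSpace ℝ (Fin (m + 1)) → ℝ) (δ : ℝ),
    Measurable u → (∀ ξ, ‖u ξ‖ ≤ 1) → (∀ᵐ x, |f x| ≤ (Fh ν u x).re) → 0 < δ → δ < 1 →
    ∫⁻ e, kakeyaMax δ f (e : EuclideanSpace ℝ (Fin (m + 1))) ^ p ∂(Pool.Agent.Q97.KD.surf (m + 1)) ≤
      ENNReal.ofReal (C * loss (m + 1) p δ) * ∫⁻ x, ‖Fh ν (fun _ => 1) x‖ₑ ^ p := by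
  obtain ⟨C, hC, h⟩ := centered_loss hm hp
  have hp0 : 0 < p := by linarith
  refine ⟨(2 ^ (m + 1)) ^ p * C, by positivity, ?_⟩
  intro ν _ u f δ hu hu1 hf hδ hδ1
  have hcont1 := Fh_continuous ν (u := fun _ => 1) measurable_const (fun _ => by simp)
  have h1 := h δ (fun x => ‖Fh ν (fun _ => 1) x‖ₑ) hδ hδ1 hcont1.measurable.enorm
  have e1 : ((2:ℝ≥0∞) ^ (m + 1)) ^ p = ENNReal.ofReal ((2 ^ (m + 1)) ^ p) := by
    rw [← ENNReal.ofReal_rpow_of_pos (by positivity), ENNReal.ofReal_pow (by norm_num)]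
    simp
  calc ∫⁻ e, kakeyaMax δ f (e : EuclideanSpace ℝ (Fin (m + 1))) ^ p ∂(Pool.Agent.Q97.KD.surf (m + 1))
      ≤ ∫⁻ e, (2 ^ (m + 1)) ^ p * cen δ (fun x => ‖Fh ν (fun _ => 1) x‖ₑ)
          (e : EuclideanSpace ℝ (Fin (m + 1))) ^ p ∂(Pool.Agent.Q97.KD.surf (m + 1)) := by
        apply lintegral_mono
        intro e
        simp only
        rw [← ENNReal.mul_rpow_of_nonneg _ _ hp0.le]
        exact ENNReal.rpow_le_rpow (domination hδ ν hu hu1 hf (by simp)) hp0.le
    _ = (2 ^ (m + 1)) ^ p * ∫⁻ e, cen δ (fun x => ‖Fh ν (fun _ => 1) x‖ₑ)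
          (e : EuclideanSpace ℝ (Fin (m + 1))) ^ p ∂(Pool.Agent.Q97.KD.surf (m + 1)) :=
        lintegral_const_mul' _ _ (ENNReal.rpow_ne_top_of_nonneg hp0.le (by simp))
    _ ≤ (2 ^ (m + 1)) ^ p * (ENNReal.ofReal (C * loss (m + 1) p δ) *
          ∫⁻ x, ‖Fh ν (fun _ => 1) x‖ₑ ^ p) := by gcongr
    _ = _ := by
        rw [e1, ← mul_assoc, ← ENNReal.ofReal_mul (by positivity), mul_assoc]

end Pool.Agent.Q97.KF
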